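import Pool.Agent.MP_13e7a1_an.H82.Tools

/-!
The weak gradient of a limit whose differentials are Cauchy in `L²`, and convergence of the
Monge-Ampere pairings.
-/

open scoped ContDiff Topology Matrix
open Set Metric MeasureTheory Filter

noncomputable section

namespace Pool.Agent.MP_13e7a1_an.H24

open Pool.Agent.MP_13e7a1_an.H82

section L2

variable {μ : Measure E}

/-- The pointwise norm as an element of real `L²`. -/
def normL (P : Lp V 2 μ) : Lp ℝ 2 μ := (Lp.memLp P).norm.toLp _

theorem norm_normL (P : Lp V 2 μ) : ‖normL P‖ = ‖P‖ := by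
  rw [normL, Lp.norm_toLp, eLpNorm_norm, Lp.norm_def]

theorem inner_normL (P Q : Lp V 2 μ) :
    inner ℝ (normL P) (normL Q) = ∫ x, ‖P x‖ * ‖Q x‖ ∂μ := by
  rw [L2.inner_def]
  refine integral_congr_ae ?_
  filter_upwards [(Lp.memLp P).norm.coeFn_toLp, (Lp.memLp Q).norm.coeFn_toLp] with x h1 h2
  simp only [normL, h1, h2, RCLike.inner_apply, conj_trivial]
  ring

theorem integrable_nn (P Q : Lp V 2 μ) : Integrable (fun x => ‖P x‖ * ‖Q x‖) μ :=
  MemLp.integrable_mul (Lp.memLp P).norm (Lp.memLp Q).norm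

theorem int_nn_le (P Q : Lp V 2 μ) : ∫ x, ‖P x‖ * ‖Q x‖ ∂μ ≤ ‖P‖ * ‖Q‖ := by
  rw [← inner_normL, ← norm_normL P, ← norm_normL Q]
  exact real_inner_le_norm _ _

theorem norm_sq_eq (P : Lp V 2 μ) : ‖P‖ ^ 2 = ∫ x, ‖P x‖ ^ 2 ∂μ := by
  rw [← norm_normL, ← real_inner_self_eq_norm_sq, inner_normL]
  simp only [sq]

/-- A jointly continuous field of bilinear forms that is bounded almost everywhere. -/
structure Bil (μ : Measure E) (B : E → V → V → ℝ) (C : ℝ) : Prop where
  cont : Continuous fun z : E × V × V => B z.1 z.2.1 z.2.2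
  left : ∀ x p p' q, B x (p - p') q = B x p q - B x p' q
  right : ∀ x p q q', B x p (q - q') = B x p q - B x p q'
  bd : ∀ᵐ x ∂μ, ∀ p q, |B x p q| ≤ C * (‖p‖ * ‖q‖)
  nonneg : 0 ≤ C

variable {B : E → V → V → ℝ} {C : ℝ}

theorem Bil.integrable (h : Bil μ B C) (P Q : Lp V 2 μ) :
    Integrable (fun x => B x (P x) (Q x)) μ := by
  refine ((integrable_nn P Q).const_mul C).mono' ?_ ?_
  · exact h.cont.comp_aestronglyMeasurable
      (aestronglyMeasurable_id.prodMk
        ((Lp.aestronglyMeasurable P).prodMk (Lp.aestronglyMeasurable Q)))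
  · filter_upwards [h.bd] with x hx using hx _ _

theorem Bil.abs_le (h : Bil μ B C) (P Q : Lp V 2 μ) :
    |∫ x, B x (P x) (Q x) ∂μ| ≤ C * (‖P‖ * ‖Q‖) := by
  calc |∫ x, B x (P x) (Q x) ∂μ| ≤ ∫ x, |B x (P x) (Q x)| ∂μ := abs_integral_le_integral_abs
    _ ≤ ∫ x, C * (‖P x‖ * ‖Q x‖) ∂μ := by
        refine integral_mono_ae (h.integrable P Q).abs ((integrable_nn P Q).const_mul C) ?_
        filter_upwards [h.bd] with x hx using hx _ _
    _ ≤ C * (‖P‖ * ‖Q‖) := by
        rw [integral_const_mul]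
        exact mul_le_mul_of_nonneg_left (int_nn_le P Q) h.nonneg

theorem Bil.sub_eq (h : Bil μ B C) (P P' Q Q' : Lp V 2 μ) :
    (∫ x, B x (P x) (Q x) ∂μ) - ∫ x, B x (P' x) (Q' x) ∂μ =
      (∫ x, B x ((P - P') x) (Q x) ∂μ) + ∫ x, B x (P' x) ((Q - Q') x) ∂μ := by
  rw [← integral_sub (h.integrable _ _) (h.integrable _ _),
    ← integral_add (h.integrable _ _) (h.integrable _ _)]
  refine integral_congr_ae ?_
  filter_upwards [Lp.coeFn_sub P P', Lp.coeFn_sub Q Q'] with x h1 h2
  rw [h1, h2, Pi.sub_apply, Pi.sub_apply, h.left, h.right]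
  ring

theorem Bil.tendsto (h : Bil μ B C) {P Q : ℕ → Lp V 2 μ} {P' Q' : Lp V 2 μ}
    (hP : Tendsto P atTop (𝓝 P')) (hQ : Tendsto Q atTop (𝓝 Q')) :
    Tendsto (fun j => ∫ x, B x (P j x) (Q j x) ∂μ) atTop (𝓝 (∫ x, B x (P' x) (Q' x) ∂μ)) := by
  rw [tendsto_iff_norm_sub_tendsto_zero] at *
  have hQn : Tendsto (fun j => ‖Q j‖) atTop (𝓝 ‖Q'‖) :=
    (tendsto_iff_norm_sub_tendsto_zero.2 hQ).norm
  have hlim : Tendsto (fun j => C * (‖P j - P'‖ * ‖Q j‖) + C * (‖P'‖ * ‖Q j - Q'‖)) atTop
      (𝓝 (C * (0 * ‖Q'‖) + C * (‖P'‖ * 0))) :=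
    ((hP.mul hQn).const_mul C).add ((hQ.const_mul _).const_mul C)
  simp only [zero_mul, mul_zero, add_zero] at hlim
  refine squeeze_zero (fun j => norm_nonneg _) (fun j => ?_) hlim
  rw [Real.norm_eq_abs, h.sub_eq]
  exact (abs_add_le _ _).trans (add_le_add (h.abs_le _ _) (h.abs_le _ _))

end L2

theorem memLp_cont {D : Set E} (hD : IsCompact D) {g : E → V} (hg : Continuous g) :
    MemLp g 2 (volume.restrict D) := by
  have : IsFiniteMeasure (volume.restrict D) := isFiniteMeasure_restrict.2 hD.measure_lt_top.ne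
  obtain ⟨C, -, hC⟩ := exists_bound hD hg
  exact MemLp.of_bound hg.aestronglyMeasurable C
    ((ae_restrict_iff' hD.measurableSet).2 (Eventually.of_forall hC))

/-- The differentials converge in `L²`. -/
theorem exists_lim {D : Set E} (hD : IsCompact D) {f : ℕ → E → ℝ} (hf : ∀ j, ContDiff ℝ ∞ (f j))
    (h : Cau D f) : ∃ H : Lp V 2 (volume.restrict D),
      Tendsto (fun j => (memLp_cont hD (continuous_grad (hf j))).toLp (grad (f j))) atTop (𝓝 H) := by
  refine cauchySeq_tendsto_of_complete (Metric.cauchySeq_iff.2 fun ε hε => ?_)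
  obtain ⟨N, hN⟩ := h ((ε / 2) ^ 2) (by positivity)
  refine ⟨N, fun j hj k hk => ?_⟩
  rw [dist_eq_norm]
  have h1 := norm_sq_eq ((memLp_cont hD (continuous_grad (hf j))).toLp (grad (f j)) -
    (memLp_cont hD (continuous_grad (hf k))).toLp (grad (f k)))
  have h2 : ∫ x in D, ‖((memLp_cont hD (continuous_grad (hf j))).toLp (grad (f j)) -
      (memLp_cont hD (continuous_grad (hf k))).toLp (grad (f k))) x‖ ^ 2 =
      ∫ x in D, ‖grad (f j) x - grad (f k) x‖ ^ 2 := by
    refine integral_congr_ae ?_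
    filter_upwards [Lp.coeFn_sub ((memLp_cont hD (continuous_grad (hf j))).toLp (grad (f j)))
      ((memLp_cont hD (continuous_grad (hf k))).toLp (grad (f k))),
      (memLp_cont hD (continuous_grad (hf j))).coeFn_toLp,
      (memLp_cont hD (continuous_grad (hf k))).coeFn_toLp] with x e1 e2 e3
    rw [e1, Pi.sub_apply, e2, e3]
  have h3 := hN j hj k hk
  rw [← h2, ← h1] at h3
  exact (abs_le_of_sq_le_sq' h3 (by positivity)).2.trans_lt (by linarith)

/-- The covector with given components. -/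
def unc : V →L[ℝ] (E →L[ℝ] ℝ) :=
  ∑ i : Fin 4, (ContinuousLinearMap.proj (R := ℝ) (φ := fun _ : Fin 4 => ℝ) i).smulRight
    (EuclideanSpace.proj (𝕜 := ℝ) i)

theorem unc_apply (q : V) (Z : E) : unc q Z = q ⬝ᵥ Z.ofLp := by
  simp [unc, dotProduct]

theorem cov_unc (q : V) : cov (unc q) = q := by
  funext i
  simp [cov, unc_apply, bas]

theorem continuous_Nu' (c : Ctx) {X : Type} [TopologicalSpace X] {a : X → E} {p : X → V}
    (ha : Continuous a) (hp : Continuous p) : Continuous fun z => c.Nu (a z) (p z) := by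
  simp only [c.Nu_eq_sum _ (p _)]
  exact continuous_finsetSum _ fun k _ =>
    ((continuous_apply k).comp hp).smul ((c.smM_Nu_const _).continuous.comp ha)

theorem continuous_Eden' (c : Ctx) {φ : E → ℝ} (hφ : ContDiff ℝ ∞ φ) :
    Continuous fun z : E × V × V => c.o * Eden c.J φ z.2.1 z.2.2 z.1 := by
  have h1 : Continuous fun z : E × V × V => z.1 := continuous_fst
  have h2 : Continuous fun z : E × V × V => z.2.1 := continuous_snd.fst
  have h3 : Continuous fun z : E × V × V => z.2.2 := continuous_snd.snd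
  have hM : Continuous fun z : E × V × V => c.M z.1 := c.continuous_M.comp h1
  have hg : Continuous fun z : E × V × V => grad φ z.1 := (continuous_grad hφ).comp h1
  simp only [Ctx.Eden_eq, Ctx.w, Ctx.al, Ctx.s, Ctx.n]
  exact (((continuous_const.mul (continuous_pf (continuous_wd h2 (continuous_cj hM h3))
    ((c.continuous_ddc hφ).comp h1))).neg).add (continuous_const.mul (continuous_pf
      ((continuous_wd h2 (continuous_cj hM hg)).sub (continuous_wd hg (continuous_cj hM h2)))
      (continuous_Nu' c h1 h3)))).sub ((hφ.continuous.comp h1).mul (continuous_const.mul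
        (continuous_pf (continuous_Nu' c h1 h2) (continuous_Nu' c h1 h3))))

theorem bil_Eden (c : Ctx) {D : Set E} (hD : IsCompact D) {φ : E → ℝ} (hφ : ContDiff ℝ ∞ φ) :
    ∃ C, Bil (volume.restrict D) (fun x p q => c.o * Eden c.J φ p q x) C := by
  obtain ⟨C, hC, h⟩ := c.eden_bd hD hφ
  exact ⟨C, continuous_Eden' c hφ, fun x p p' q => c.Eden_sub_left φ p p' q x,
    fun x p q q' => c.Eden_sub_right φ p q q' x,
    (ae_restrict_iff' hD.measurableSet).2 (Eventually.of_forall h), hC⟩

theorem bil_dot {D : Set E} (hD : IsCompact D) {φ : E → ℝ} (hφ : Continuous φ) :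
    ∃ C, Bil (volume.restrict D) (fun x p q => p ⬝ᵥ q * φ x) C := by
  obtain ⟨C, hC, h⟩ := exists_bound hD hφ
  refine ⟨4 * C, ?_, fun x p p' q => by rw [sub_dotProduct]; ring,
    fun x p q q' => by rw [dotProduct_sub]; ring,
    (ae_restrict_iff' hD.measurableSet).2 (Eventually.of_forall fun x hx p q => ?_), by positivity⟩
  · exact (continuous_snd.fst.dotProduct continuous_snd.snd).mul (hφ.comp continuous_fst)
  · rw [abs_mul]
    have h1 := abs_dot_le p q
    have h2 : |φ x| ≤ C := h x hx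
    calc |p ⬝ᵥ q| * |φ x| ≤ 4 * (‖p‖ * ‖q‖) * C :=
          mul_le_mul h1 h2 (abs_nonneg _) (by positivity)
      _ = _ := by ring

theorem fderiv_eq_dot (g : E → ℝ) (x Z : E) : fderiv ℝ g x Z = grad g x ⬝ᵥ Z.ofLp := by
  rw [grad_eq_cov, cov_dot]

/-- Integration by parts in the direction `Z`. -/
theorem ibp {D : Set E} (hD : IsCompact D) {h g : E → ℝ} (hh : ContDiff ℝ ∞ h)
    (hg : ContDiff ℝ ∞ g) (h0 : ∀ x, x ∉ D → h x = 0) (Z : E) :
    ∫ x in D, g x * fderiv ℝ h x Z = -∫ x in D, grad g x ⬝ᵥ Z.ofLp * h x := by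
  have e1 : ∀ x, g x * fderiv ℝ h x Z = ∑ i, Z.ofLp i * (g x * pd i h x) := fun x => by
    rw [fderiv_eq_dot, dotProduct, Finset.mul_sum]
    exact Finset.sum_congr rfl fun i _ => by simp only [grad]; ring
  have e2 : ∀ x, grad g x ⬝ᵥ Z.ofLp * h x = ∑ i, Z.ofLp i * (h x * pd i g x) := fun x => by
    rw [dotProduct, Finset.sum_mul]
    exact Finset.sum_congr rfl fun i _ => by simp only [grad]; ring
  simp only [e1, e2]
  rw [integral_finsetSum (f := fun i x => Z.ofLp i * (g x * pd i h x)) _ fun i _ =>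
      intOn hD (continuous_const.mul (hg.continuous.mul (contDiff_pd hh i).continuous)),
    integral_finsetSum (f := fun i x => Z.ofLp i * (h x * pd i g x)) _ fun i _ =>
      intOn hD (continuous_const.mul (hh.continuous.mul (contDiff_pd hg i).continuous)),
    ← Finset.sum_neg_distrib]
  refine Finset.sum_congr rfl fun i _ => ?_
  rw [integral_const_mul, integral_const_mul, integral_mul_pd hD hh hg h0 i]
  ring

theorem wg (hA : SIntA) : SWG := by
  intro c p r K f u hf hK hu hc
  have hD : IsCompact (closedBall p r) := isCompact_closedBall p r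
  have : IsFiniteMeasure (volume.restrict (closedBall p r)) :=
    isFiniteMeasure_restrict.2 hD.measure_lt_top.ne
  obtain ⟨H, hH⟩ := exists_lim hD hf hc
  have hoff : ∀ φ : E → ℝ, IsTest (ball p r) φ → ∀ x, x ∉ ball p r → φ =ᶠ[𝓝 x] fun _ => 0 :=
    fun φ hφ x hx => notMem_tsupport_iff_eventuallyEq.1 fun h => hx (hφ.2.2 h)
  have hoff' : ∀ φ : E → ℝ, IsTest (ball p r) φ → ∀ x, x ∉ closedBall p r → φ x = 0 :=
    fun φ hφ x hx => (hoff φ hφ x fun h => hx (ball_subset_closedBall h)).eq_of_nhds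
  refine ⟨fun x => unc (H x), ⟨fun S _ hS => ?_, fun φ hφ Z => ?_⟩, fun φ hφ => ?_⟩
  · exact (unc.comp_memLp' (Lp.memLp H)).mono_measure
      (Measure.restrict_mono (hS.trans ball_subset_closedBall) le_rfl)
  · have hd0 : ∀ x, x ∉ closedBall p r → fderiv ℝ φ x Z = 0 := fun x hx => by
      rw [fderiv_eq_dot, grad_zero_off hD.isClosed (hoff' φ hφ) hx, zero_dotProduct]
    have hdc : Continuous fun x => fderiv ℝ φ x Z :=
      (hφ.1.continuous_fderiv (by simp)).clm_apply continuous_const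
    rw [← setIntegral_eq_integral_of_forall_compl_eq_zero (s := closedBall p r)
        (fun x hx => by rw [hd0 x hx, mul_zero]),
      ← setIntegral_eq_integral_of_forall_compl_eq_zero (s := closedBall p r)
        (f := fun y => unc (H y) Z * φ y) (fun x hx => by rw [hoff' φ hφ x hx, mul_zero])]
    have l1 : Tendsto (fun j => ∫ x in closedBall p r, f j x * fderiv ℝ φ x Z) atTop
        (𝓝 (∫ x in closedBall p r, u x * fderiv ℝ φ x Z)) := by
      refine tendsto_integral_of_dominated_convergence (fun x => K * ‖fderiv ℝ φ x Z‖)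
        (fun j => ((hf j).continuous.mul hdc).aestronglyMeasurable)
        (intOn hD (continuous_const.mul hdc.norm)) (fun j => ?_) ?_
      · refine (ae_restrict_iff' hD.measurableSet).2 (Eventually.of_forall fun x hx => ?_)
        rw [norm_mul]
        exact mul_le_mul_of_nonneg_right (hK j x hx) (norm_nonneg _)
      · exact (ae_restrict_iff' hD.measurableSet).2
          (Eventually.of_forall fun x hx => (hu x hx).mul_const _)
    obtain ⟨C, hB⟩ := bil_dot hD hφ.1.continuous
    have hZ : MemLp (fun _ : E => Z.ofLp) 2 (volume.restrict (closedBall p r)) := memLp_const _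
    have l2 := hB.tendsto hH (tendsto_const_nhds (x := hZ.toLp _))
    have e1 : ∀ j, ∫ x in closedBall p r,
        ((memLp_cont hD (continuous_grad (hf j))).toLp (grad (f j))) x ⬝ᵥ (hZ.toLp _) x * φ x =
        ∫ x in closedBall p r, grad (f j) x ⬝ᵥ Z.ofLp * φ x := fun j => by
      refine integral_congr_ae ?_
      filter_upwards [(memLp_cont hD (continuous_grad (hf j))).coeFn_toLp, hZ.coeFn_toLp]
        with x a1 a2
      rw [a1, a2]
    have e2 : ∫ x in closedBall p r, H x ⬝ᵥ (hZ.toLp _) x * φ x =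
        ∫ x in closedBall p r, unc (H x) Z * φ x := by
      refine integral_congr_ae ?_
      filter_upwards [hZ.coeFn_toLp] with x a2
      rw [a2, unc_apply]
    simp only [e1, e2] at l2
    refine tendsto_nhds_unique l1 ?_
    simp only [ibp hD hφ.1 (hf _) (hoff' φ hφ) Z]
    exact l2.neg
  · obtain ⟨C, hB⟩ := bil_Eden c hD hφ.1
    have l2 := hB.tendsto hH hH
    simp only [cov_unc]
    rw [← int_subset (D' := closedBall p r) ball_subset_closedBall
      (h := fun x => c.o * Eden c.J φ (H x) (H x) x) fun x hx => c.Eden_zero (hoff φ hφ x hx) _ _]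
    refine l2.congr fun j => ?_
    rw [hA.ephi c _ hD φ _ _ hφ.1 (hf j) (hf j) (hoff' φ hφ)]
    refine integral_congr_ae ?_
    filter_upwards [(memLp_cont hD (continuous_grad (hf j))).coeFn_toLp] with x a1
    rw [a1]

end Pool.Agent.MP_13e7a1_an.H24
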